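import Pool.Agent.MP_c69980_ag.G3H.Lat

/-!
Open surfaces with a nonconstant function: common facts.
-/

set_option autoImplicit false

noncomputable section

namespace Pool.Agent.MP_c69980_ag.E2.G3H

open MvPolynomial Metric Filter Topology Set Real
open H60 H4 E1

variable {n : ℕ} {X : Set (Pt n)} {W U : Set (PS n)} {a j : Fin n} {O : Set (ℂ × ℂ)}
  {Y : ℂ × ℂ → V n} {p : ℂ × ℂ} {y y' w w' v : V n} {t z z' l : ℂ} {A A' : Set ℂ}
  {s s' g g' F : ℂ → V n} {D : Fib n} {Q : PR 3} {d : ℕ}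

/-! ### Cones over open sets -/

/-- Translation by a period. -/
lemma _root_.Pool.Agent.MP_c69980_ag.E1.Sc.shiftH {L : Bas} (hX : Cov L W X) (H : Sc X A s)
    (hl : l ∈ L.lattice) (hm : ∀ t ∈ A', t + l ∈ A) : Sc X A' fun t => s (t + l) :=
  ⟨H.1.comp (fun _ _ => analyticAt_id.add analyticAt_const) hm, fun t ht => by
    simpa using hX.per _ (H.2 _ (hm t ht)) (-l) (neg_mem hl)⟩

lemma _root_.Pool.Agent.MP_c69980_ag.E1.Rg.shiftH {L : Bas} (hX : Cov L W X) (h : (t, y) ∈ Rg X a j)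
    (hl : l ∈ L.lattice) : (t + l, y) ∈ Rg X a j := by
  obtain ⟨U, Y, c, z, z1, z2⟩ := h
  exact ⟨_, _, c.shift (fun x hx => hX.per x hx l hl) fun x hx => by
    simpa [sub_eq_add_neg] using hX.per x hx _ (neg_mem hl), z, by simpa using z1,
    by simpa using z2⟩

lemma _root_.Pool.Agent.MP_c69980_ag.E1.Rx.shiftH {L : Bas} (hX : Cov L W X) (h : (t, y) ∈ Rx X)
    (hl : l ∈ L.lattice) : (t + l, y) ∈ Rx X := by
  obtain ⟨a, j, h⟩ := h
  exact ⟨a, j, Rg.shiftH hX h hl⟩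

lemma Fib.cn (D : Fib n) : Cn D.X := D.cov.cn

lemma Fib.cone (D : Fib n) (h : (t, y) ∈ D.X) : y ∈ Cone D.W := D.cov.cone y ⟨t, h⟩

/-- The open part is open. -/
lemma Fib.ev (D : Fib n) (hy : y ∈ Cone D.U) :
    ∀ᶠ x in 𝓝 ((t, y) : Pt n), x ∈ D.X → x.2 ∈ Cone D.U :=
  (continuous_snd.continuousAt.eventually (D.eqp.ev hy)).mono fun _ q hx => q (D.cone hx)

lemma Fib.ev_chart (D : Fib n) (h : Chart D.X a j O Y) (hp : p ∈ O) (hy : Y p ∈ Cone D.U) :
    ∀ᶠ q in 𝓝 p, q ∈ O ∧ Y q ∈ Cone D.U := by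
  filter_upwards [h.nhds hp, (h.an hp).continuousAt.eventually (D.eqp.ev hy)] with q q1 q2
  exact ⟨q1, q2 (D.cone (h.mem q1))⟩

/-- The boundary is closed. -/
lemma Fib.bd_lim (D : Fib n) {β : Type*} {f : Filter β} [f.NeBot] {x : β → Pt n}
    (hx : Tendsto (fun k => (x k).2) f (𝓝 y))
    (H : ∀ᶠ k in f, x k ∈ D.X ∧ (x k).2 ∉ Cone D.U) : y ∉ Cone D.U := fun hy => by
  obtain ⟨k, k1, k2⟩ := (H.and (hx.eventually (D.eqp.ev hy))).exists
  exact k1.2 (k2 (D.cone k1.1))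

lemma Fib.sc_ev (D : Fib n) (hs : Sc D.X A s) (o : IsOpen A) (ht : t ∈ A) (hU : s t ∈ Cone D.U) :
    ∀ᶠ w in 𝓝 t, s w ∈ Cone D.U := by
  obtain ⟨g, g1, -, g3⟩ := lh_iff.1 hs.1 t ht
  filter_upwards [g3, o.mem_nhds ht, g1.continuousAt.eventually
    (D.eqp.ev (cone_pp hU g3.self_of_nhds.symm))] with w w1 w2 w3
  exact cone_pp (w3 (cone_pp (D.cone (hs.2 w w2)) w1.symm)) w1

lemma Fib.shift (D : Fib n) (H : Sc D.Xo A s) (hl : l ∈ D.L.lattice)
    (hm : ∀ t ∈ A', t + l ∈ A) : Sc D.Xo A' fun t => s (t + l) :=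
  sc_op.2 ⟨(sc_op.1 H).1.shiftH D.cov hl hm, fun t ht => (sc_op.1 H).2 _ (hm t ht)⟩

lemma Fib.per (D : Fib n) (hl : l ∈ D.L.lattice) : (t + l, y) ∈ D.X ↔ (t, y) ∈ D.X :=
  ⟨fun h => by simpa using D.cov.per _ h (-l) (neg_mem hl), fun h => D.cov.per _ h l hl⟩

lemma Fib.chart_shift (D : Fib n) (h : Chart D.X a j O Y) (hl : l ∈ D.L.lattice) :
    Chart D.X a j {p | (p.1 - l, p.2) ∈ O} fun p => Y (p.1 - l, p.2) :=
  h.shift (fun x hx => D.cov.per x hx l hl) fun x hx => by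
    simpa [sub_eq_add_neg] using D.cov.per x hx _ (neg_mem hl)

/-! ### The forms -/

section

variable {m : ℕ} {L : Bas} {Φ : Fin 3 → Pt n → V n → ℂ}

/-- The values of the forms on a vertical vector. -/
lemma Frm.vt (F : Frm L X U m Φ) (hX : Cn X) (h : Chart X a j O Y) (hp : p ∈ O)
    (hU : Y p ∈ Cone U) (hy : Pp y (Y p)) (hv : Vt X (p.1, y) v) :
    ∃ κ : ℂ, κ ≠ 0 ∧ wg y v = (y j ^ 2 * κ) • wg (Y p) (dz Y p) ∧
      lamv y v = ‖κ‖ ^ 2 * lamv (Y p) (dz Y p) ∧ ∀ i, Φ i (p.1, y) v = κ ^ m * fc Φ Y i p := by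
  obtain ⟨α, β, α0, rfl⟩ := (h.vt_iff hX hp hy).1 hv
  obtain ⟨c, c0, rfl⟩ := hy
  refine ⟨α / c, div_ne_zero α0 c0, ?_, lamv_comb (h.ne hp) c0 _ _ _, fun i => by
    simpa using F.hom a j O Y h p hp hU 0 (zero_mem _) c α β i c0⟩
  rw [wg_smul_left, wg_comb, smul_smul, Pi.smul_apply, h.yj hp]
  congr 1
  simp only [smul_eq_mul]
  field_simp

/-- The same with an explicit factor. -/
lemma Frm.vt' (F : Frm L X U m Φ) (hX : Cn X) (h : Chart X a j O Y) (hp : p ∈ O)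
    (hU : Y p ∈ Cone U) (hy : Pp y (Y p)) (hv : Vt X (p.1, y) v) : wg y v (j, a) / y j ^ 2 ≠ 0 ∧
      ∀ i, Φ i (p.1, y) v = (wg y v (j, a) / y j ^ 2) ^ m * fc Φ Y i p := by
  obtain ⟨κ, k0, k1, -, k2⟩ := F.vt hX h hp hU hy hv
  have e : wg y v (j, a) / y j ^ 2 = κ := by
    rw [k1, Pi.smul_apply, h.wg_dz hp, smul_eq_mul, mul_one,
      mul_div_cancel_left₀ _ (pow_ne_zero 2 (h.eq hp hy).1)]
  rw [e]
  exact ⟨k0, k2⟩

lemma Frm.shift (F : Frm L X U m Φ) (h : Chart X a j O Y) (hl : l ∈ L.lattice)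
    (hp : (p.1 - l, p.2) ∈ O) (hU : Y (p.1 - l, p.2) ∈ Cone U) (i : Fin 3) :
    fc Φ (fun p => Y (p.1 - l, p.2)) i p = fc Φ Y i (p.1 - l, p.2) := by
  simpa [fc, dz_shift] using F.hom a j O Y h _ hp hU l hl 1 1 0 i one_ne_zero

lemma Frm.qq_an (F : Frm L X U m Φ) (h : Chart X a j O Y) (hp : p ∈ O) (hU : Y p ∈ Cone U)
    (Q : PR 3) : AnalyticAt ℂ (qq Φ Q Y) p := by
  have := AnalyticAt.aeval_mvPolynomial (fun l => F.an a j O Y h p hp hU l) Q
  simp only [aeval_eq_eval] at this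
  exact this

end

/-! ### The bad values -/

lemma Far.mono {η η' : ℝ} (h : Far D η t) (H : η' ≤ η) : Far D η' t :=
  fun b hb => H.trans (h b hb)

lemma Far.near {η : ℝ} {t' : ℂ} (h : Far D η t) : Far D (η - ‖t' - t‖) t' := fun b hb => by
  have h1 := h b hb
  have h2 := norm_sub_le (t' - b) (t' - t)
  rw [show t' - b - (t' - t) = t - b by ring] at h2
  linarith

lemma Far.notMem {η : ℝ} (h : Far D η t) (hη : 0 < η) : t ∉ D.B := fun q => by
  simpa [hη.not_ge] using h t q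

lemma far_closed (D : Fib n) (η : ℝ) : IsClosed {t | Far D η t} := by
  simp only [Far, ofPred_forall]
  exact isClosed_iInter fun _ => isClosed_iInter fun _ =>
    isClosed_le continuous_const (by fun_prop)

lemma lat_sub (D : Fib n) (h : t ∈ D.L.lattice) : t ∈ D.B := .inl h

lemma b_shift (hL : LatStmt) (hl : l ∈ D.L.lattice) : t + l ∈ D.B ↔ t ∈ D.B :=
  ⟨fun h => by simpa using ((hL D.L).2.2 D.S).1 _ h (-l) (neg_mem hl),
    fun h => ((hL D.L).2.2 D.S).1 _ h l hl⟩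

lemma far_shift (hL : LatStmt) {η : ℝ} (hl : l ∈ D.L.lattice) : Far D η (t + l) ↔ Far D η t :=
  ⟨fun h b hb => by simpa using h (b + l) ((b_shift hL hl).2 hb),
    fun h b hb => by
      have := h (b - l) ((b_shift hL hl).1 (by simpa using hb))
      rwa [show t - (b - l) = t + l - b by ring] at this⟩

lemma far_of_notMem (hL : LatStmt) (h : t ∉ D.B) : ∃ η : ℝ, 0 < η ∧ Far D η t := by
  obtain ⟨r, r0, hr⟩ := ((hL D.L).2.2 D.S).2.2 t
  refine ⟨r, r0, fun b hb => le_of_not_gt fun q => h ?_⟩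
  rw [norm_sub_rev] at q
  exact hr b hb q.le ▸ hb

lemma b_ev (hL : LatStmt) (D : Fib n) (t : ℂ) : ∀ᶠ w in 𝓝[≠] t, w ∉ D.B := by
  obtain ⟨r, r0, hr⟩ := ((hL D.L).2.2 D.S).2.2 t
  filter_upwards [self_mem_nhdsWithin, nhdsWithin_le_nhds (closedBall_mem_nhds t r0)] with w a b c
  exact a (hr w c (mem_closedBall_iff_norm.1 b))

lemma b_open (hL : LatStmt) (D : Fib n) : IsOpen D.Bᶜ := isOpen_iff_mem_nhds.2 fun t ht => by
  filter_upwards [eventually_nhdsWithin_iff.1 (b_ev hL D t)] with w hw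
  by_cases e : w = t
  · exact e ▸ ht
  · exact hw e

lemma b_count (hL : LatStmt) (D : Fib n) : D.B.Countable :=
  (HereditarilyLindelofSpace.isLindelof _).countable_of_isDiscrete (isDiscrete_iff_nhdsNE.2
    fun t _ => inf_principal_eq_bot.2 (b_ev hL D t))

lemma b_conn (hL : LatStmt) (D : Fib n) : IsPreconnected D.Bᶜ :=
  ((b_count hL D).isConnected_compl_of_one_lt_rank (by simp)).isPreconnected

/-- All the points over a small punctured disc are regular. -/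
lemma pun (D : Fib n) {c : ℂ} {r : ℝ} (h : ∀ t ∈ D.B, ‖t - c‖ ≤ r → t = c) : Pun D.X c r :=
  fun x hx e => D.bad x hx.1 fun q => e (h _ q hx.2)

/-- Sections that agree off the bad values agree. -/
lemma pp_of_off (hL : LatStmt) (D : Fib n) (hs : LH A s) (hg : LH A g) (o : IsOpen A)
    (h : ∀ t ∈ A, t ∉ D.B → Pp (s t) (g t)) (ht : t ∈ A) : Pp (s t) (g t) := by
  refine (d2_eq_zero (hs.ne ht) (hg.ne ht)).1 (tendsto_nhds_unique (l := 𝓝[≠] t)
    ((lh_d2 hs hg ht).tendsto.mono_left nhdsWithin_le_nhds) (tendsto_const_nhds.congr' ?_))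
  filter_upwards [b_ev hL D t, nhdsWithin_le_nhds (o.mem_nhds ht)] with w a b
  exact ((d2_eq_zero (hs.ne b) (hg.ne b)).2 (h w b a)).symm

/-- The slit part of a disc is connected. -/
lemma sdiff_conn {D : Fib n} (hL : LatStmt) (c : ℂ) (r : ℝ) : IsPreconnected (ball c r \ D.B) := by
  rcases le_or_gt r 0 with h | h
  · rw [ball_eq_empty.2 h, empty_sdiff]
    exact isPreconnected_empty
  have e : ball c r \ D.B = (OpenPartialHomeomorph.univBall c r) ''
      ((OpenPartialHomeomorph.univBall c r) ⁻¹' D.B)ᶜ := by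
    ext t
    constructor
    · rintro ⟨h1, h2⟩
      have m : t ∈ (OpenPartialHomeomorph.univBall c r).target := by
        rwa [OpenPartialHomeomorph.univBall_target c h]
      exact ⟨_, fun q => h2 ((OpenPartialHomeomorph.univBall c r).right_inv m ▸ q),
        (OpenPartialHomeomorph.univBall c r).right_inv m⟩
    · rintro ⟨x, hx, rfl⟩
      refine ⟨?_, hx⟩
      rw [← OpenPartialHomeomorph.univBall_target c h]
      exact (OpenPartialHomeomorph.univBall c r).map_source (by simp)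
  rw [e]
  refine (((b_count hL D).preimage_of_injOn fun x _ y _ q =>
    (OpenPartialHomeomorph.univBall c r).injOn (by simp) (by simp) q
      ).isConnected_compl_of_one_lt_rank (by simp)).isPreconnected.image _
    (OpenPartialHomeomorph.continuous_univBall c r).continuousOn

/-- The bad values lie in a strip. -/
lemma b_strip (D : Fib n) : ∃ M : ℝ, 0 ≤ M ∧ ∀ t ∈ D.B, |t.re| ≤ M := D.L.bad_strip D.S

lemma far_of_re (D : Fib n) (r : ℝ) : ∃ M : ℝ, 0 ≤ M ∧ ∀ t : ℂ, M ≤ |t.re| → Far D r t := by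
  obtain ⟨M, M0, hM⟩ := b_strip D
  refine ⟨M + |r|, by positivity, fun t ht b hb => le_trans ?_ (Complex.abs_re_le_norm _)⟩
  rw [Complex.sub_re]
  linarith [abs_sub_abs_le_abs_sub t.re b.re, hM b hb, le_abs_self r]

end Pool.Agent.MP_c69980_ag.E2.G3H
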