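import Pool.Agent.MP_c69980_ag.G3H.Base
import Pool.Agent.MP_c69980_ag.E1.Hyp

/-!
Hyperbolicity of the open surface away from the bad fibres.
-/

set_option autoImplicit false

noncomputable section

namespace Pool.Agent.MP_c69980_ag.E2.G3H

open MvPolynomial Metric Filter Topology Set
open H60 H4 E1

/-- Curves in the boundary of a good fibre are constant. -/
lemma bd_const {n : ℕ} (D : Fib n) {G f : ℂ → V n} {t : ℂ} (ht : t ∉ D.B) (hG : LH univ G)
    (hX : ∀ w, (t, G w) ∈ D.X) (hU : ∀ w, G w ∉ Cone D.U) (hf : AnalyticAt ℂ f 0)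
    (hp : ∀ᶠ w in 𝓝 (0 : ℂ), Pp (G w) (f w)) : lam f 0 = 0 := by
  obtain ⟨a, j, O, Y, h, z, z1, z2⟩ := D.bad _ (hX 0) ht
  obtain ⟨ζ, φ, -, a2, -, a4⟩ := D.pole a j O Y h _ z1 ht fun q => hU 0 (cone_pp q z2)
  obtain ⟨b1, b2⟩ := h.ev_pc (K := univ) (τ := fun _ => t) D.cn z1 (mem_univ 0)
    continuousWithinAt_const hG.pc (.of_forall hX) rfl z2
  rw [nhdsWithin_univ] at b1 b2
  rw [lam_eq (g' := fun _ => Y (t, z)) hf analyticAt_const (h.ne z1) (by
    filter_upwards [hp, b2, b1.eventually a4] with w w1 w2 w3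
    have e : G w a / G w j = z := (not_not.1 fun q => hU w (cone_pp (w3.1.2 fun r =>
      q (r.trans a2)) w2.2))
    exact w1.symm.trans (e ▸ w2.2))]
  simp [lam, lamv, H4.sq, ip]

theorem hyp (h1 : FibStmt) (h2 : MonStmt) (h3 : HurStmt) (h4 : LatStmt) : HypStmt := by
  intro n D η M hη
  by_contra hcon
  obtain ⟨R, -, hR⟩ := (h4 D.L).1 M
  have ex : ∀ k : ℕ, ∃ (G : ℂ → V n) (h : ℂ → ℂ), Nm D.Xo (ball 0 ((k : ℝ) + 1)) G h ∧
      lam G 0 = 1 ∧ ‖h 0‖ ≤ R ∧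
      ∀ z ∈ ball (0 : ℂ) ((k : ℝ) + 1), Far D η (h z) ∧ lam G z ≤ 4 := by
    intro k
    by_contra hk
    refine hcon ⟨16 * ((k : ℝ) + 1) ^ 2, by positivity, fun F h c r hr hN hf => ?_⟩
    refine le_of_not_gt fun q => hk ?_
    obtain ⟨z₀, ρ, ρ0, ρ1, H⟩ := HypX.brody hr (by positivity) hN.1 q.le
    obtain ⟨l, hl, hl'⟩ := hR (h z₀) (by
      simpa using (hf _ (H 0 (mem_ball_self (by positivity))).1).2)
    have sc := (R1.scale n F z₀ ρ ρ0).1
    have df : DifferentiableOn ℂ (fun w : ℂ => z₀ + ρ * w) (ball 0 ((k : ℝ) + 1)) := by fun_prop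
    refine ⟨fun w => F (z₀ + ρ * w), fun w => h (z₀ + ρ * w) - l,
      ⟨⟨hN.1.1.comp df fun w hw => (H w hw).1, fun w hw => hN.1.2 _ (H w hw).1⟩,
        (hN.2.1.comp df fun w hw => (H w hw).1).sub_const l, fun w hw => ?_⟩, ?_, ?_,
      fun w hw => ⟨fun b hb => ?_, ?_⟩⟩
    · exact ⟨by simpa [sub_eq_add_neg] using D.cov.per _ (hN.2.2 _ (H w hw).1).1 _ (neg_mem hl),
        (hN.2.2 _ (H w hw).1).2⟩
    · rw [sc, mul_zero, add_zero, ρ1]
    · simpa using hl'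
    · rw [sub_sub, add_comm l]
      exact (hf _ (H w hw).1).1 _ (((h4 D.L).2.2 D.S).1 b hb l hl)
    · rw [sc]
      exact (H w hw).2
  choose G h hN h0 hb hf using ex
  obtain ⟨u, hu⟩ : ∃ u : Ultrafilter ℕ, (u : Filter ℕ) ≤ atTop := ⟨.of atTop, Ultrafilter.of_le _⟩
  have evr : ∀ ρ : ℝ, ∀ᶠ k : ℕ in u, ρ ≤ (k : ℝ) + 1 := fun ρ =>
    hu ((tendsto_natCast_atTop_atTop.eventually_ge_atTop ρ).mono fun _ h => by linarith)
  have evb : ∀ z : ℂ, ∀ᶠ k : ℕ in u, z ∈ ball (0 : ℂ) ((k : ℝ) + 1) := fun z =>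
    (evr (‖z‖ + 1)).mono fun k hk => mem_ball_zero_iff.2 (by linarith)
  have k0 : ∀ k : ℕ, (0 : ℂ) ∈ ball (0 : ℂ) ((k : ℝ) + 1) := fun k => mem_ball_self (by positivity)
  obtain ⟨t, -, ht⟩ := (isCompact_closedBall (0 : ℂ) R).ultrafilter_le_nhds
    (u.map fun k => h k 0) (by
      rw [Ultrafilter.coe_map, le_principal_iff, mem_map]
      exact univ_mem' fun k => mem_closedBall_zero_iff.2 (hb k))
  have ht : Tendsto (fun k => h k 0) u (𝓝 t) := ht
  have tb : t ∉ Bad D.L D.S := fun q => by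
    have := ge_of_tendsto' (ht.sub_const t).norm fun k => (hf k 0 (k0 k)).1 t q
    rw [sub_self, norm_zero] at this
    linarith
  have b0 : (0 : ℂ) ∈ Bad D.L D.S := Or.inl (zero_mem _)
  have t0 : t ≠ 0 := fun q => tb (q ▸ b0)
  have lo : ∀ k : ℕ, ∀ z ∈ ball (0 : ℂ) ((k : ℝ) + 1), η ≤ ‖h k z‖ := fun k z hz => by
    simpa using (hf k z hz).1 0 b0
  have up : ∀ k : ℕ, ∀ z ∈ ball (0 : ℂ) ((k : ℝ) + 1), ‖(h k z)⁻¹‖ ≤ η⁻¹ := fun k z hz => by
    rw [norm_inv]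
    exact inv_anti₀ hη (lo k z hz)
  have tz : ∀ z, Tendsto (fun k => h k z) u (𝓝 t) := fun z => by
    have s1 : Tendsto (fun k : ℕ => (η⁻¹ + η⁻¹) / ((k : ℝ) + 1) * dist z 0) u (𝓝 0) := by
      have := ((tendsto_const_nhds (x := η⁻¹ + η⁻¹)).div_atTop
        (tendsto_atTop_add_const_right _ 1 tendsto_natCast_atTop_atTop)).mul_const (dist z 0)
      rw [zero_mul] at this
      exact this.mono_left hu
    have s2 : Tendsto (fun k => (h k z)⁻¹) u (𝓝 t⁻¹) := by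
      refine (ht.inv₀ t0).congr_dist (squeeze_zero' (.of_forall fun _ => dist_nonneg) ?_ s1)
      filter_upwards [evb z] with k hk
      rw [dist_comm]
      refine Complex.dist_le_div_mul_dist_of_mapsTo_ball (f := fun z => (h k z)⁻¹)
        ((hN k).2.1.inv fun w hw => norm_pos_iff.1 (hη.trans_le (lo k w hw))) (fun w hw => ?_) hk
      rw [mem_closedBall_iff_norm]
      exact (norm_sub_le _ _).trans (add_le_add (up k w hw) (up k 0 (k0 k)))
    simpa using s2.inv₀ (inv_ne_zero t0)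
  obtain ⟨g, hg⟩ := h2 n u univ G fun z _ => ⟨1, 4, one_pos, (evr (‖z‖ + 1)).mono fun k hk => by
    have sub : ball z 1 ⊆ ball 0 ((k : ℝ) + 1) := ball_subset_ball' (by
      rw [dist_zero_right]
      linarith)
    exact ⟨G k, crv_mono (hN k).1 sub, fun w hw => ⟨.refl _, (hf k w (sub hw)).2⟩⟩⟩
  have tl : ∀ c r f, Crv (ball c r) f → (∀ w ∈ ball c r, Pp (g w) (f w)) → ∀ w ∈ ball c r,
      Tendsto (fun k => lam (G k) w) u (𝓝 (lam f w)) := fun c r f f1 f2 w hw =>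
    hg.lam (mem_univ w) (Crv.an f1 isOpen_ball hw) (mem_of_superset (isOpen_ball.mem_nhds hw) f2)
      ((evb w).mono fun k hk => ⟨Crv.an (hN k).1 isOpen_ball hk, .of_forall fun _ => .refl _⟩)
  obtain ⟨f, r, r0, f1, f2⟩ := hg.lh 0 (mem_univ _)
  have gX : ∀ w, (t, g w) ∈ D.X := fun w =>
    hg.mem D.cov.cn (mem_univ w) (tz w) ((evb w).mono fun k hk => ((hN k).2.2 w hk).1)
  have e0 : lam f 0 = 0 := (h3 n D.W D.U u univ G g D.eqp isOpen_univ isPreconnected_univ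
    (fun z _ => ⟨1, one_pos, (evr (‖z‖ + 1)).mono fun k hk w hw => ((hN k).2.2 w
      (ball_subset_ball' (by rw [dist_zero_right]; linarith) hw)).2⟩) hg
    fun w _ => D.cone (gX w)).elim (fun q => h1 n D g t 4 tb hg.lh (fun w => ⟨gX w, q w trivial⟩)
      (fun c r f f1 f2 w hw => le_of_tendsto (tl c r f f1 f2 w hw)
        ((evb w).mono fun k hk => (hf k w hk).2)) r f r0 f1 f2) fun q =>
    bd_const D tb hg.lh gX (fun w => q w trivial) (Crv.an f1 isOpen_ball (mem_ball_self r0))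
      (mem_of_superset (ball_mem_nhds 0 r0) f2)
  have e1 := tl 0 r f f1 f2 0 (mem_ball_self r0)
  simp only [h0, e0] at e1
  exact one_ne_zero (tendsto_nhds_unique tendsto_const_nhds e1)

end Pool.Agent.MP_c69980_ag.E2.G3H
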