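import Pool.Agent.MP_c69980_ag.G3H.SpecB

/-!
The base: the periods and the bad values.
-/

set_option autoImplicit false

noncomputable section

namespace Pool.Agent.MP_c69980_ag.E2.G3H

open Metric Filter Topology Set

namespace Bas

variable (L : Bas) {t l : ℂ}

lemma mem_iff : l ∈ L.lattice ↔ ∃ k : ℤ, l = k * (2 * Real.pi * Complex.I) := by
  rw [lattice, Submodule.mem_span_singleton]
  exact exists_congr fun k => by rw [zsmul_eq_mul, eq_comm]

lemma exp_iff : Complex.exp l = 1 ↔ l ∈ L.lattice := by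
  rw [Complex.exp_eq_one_iff, mem_iff]

lemma exp_ne (h : t ∉ L.lattice) : Complex.exp t - 1 ≠ 0 := fun q =>
  h (L.exp_iff.1 (sub_eq_zero.1 q))

lemma re_zero (h : l ∈ L.lattice) : l.re = 0 := by
  obtain ⟨k, rfl⟩ := L.mem_iff.1 h
  simp

lemma re_add (h : l ∈ L.lattice) (t : ℂ) : (t + l).re = t.re := by
  rw [Complex.add_re, L.re_zero h, add_zero]

lemma re_sub (h : l ∈ L.lattice) (t : ℂ) : (t - l).re = t.re := by
  rw [Complex.sub_re, L.re_zero h, sub_zero]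

lemma exp_add (h : l ∈ L.lattice) (t : ℂ) : Complex.exp (t + l) = Complex.exp t := by
  rw [Complex.exp_add, L.exp_iff.2 h, mul_one]

lemma exp_eq {t' : ℂ} : Complex.exp t = Complex.exp t' ↔ t - t' ∈ L.lattice := by
  rw [Complex.exp_eq_exp_iff_exp_sub_eq_one, L.exp_iff]

lemma wp_add_coe (t : ℂ) (l : L.lattice) : L.wp (t + l) = L.wp t := by
  rw [wp, wp, L.exp_add l.2]

lemma wq_add_coe (t : ℂ) (l : L.lattice) : L.wq (t + l) = L.wq t := by
  rw [wq, wq, L.exp_add l.2]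

lemma isClosed_lattice : IsClosed (L.lattice : Set ℂ) := by
  have : (L.lattice : Set ℂ) = {t | Complex.exp t = 1} := Set.ext fun _ => L.exp_iff.symm
  rw [this]
  exact isClosed_eq Complex.continuous_exp continuous_const

lemma analyticOnNhd_wp : AnalyticOnNhd ℂ L.wp (L.lattice : Set ℂ)ᶜ := fun _ h =>
  (analyticAt_cexp.sub analyticAt_const).inv (L.exp_ne h)

lemma differentiableOn_wp : DifferentiableOn ℂ L.wp (L.lattice : Set ℂ)ᶜ :=
  L.analyticOnNhd_wp.differentiableOn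

lemma meromorphic_wp (t : ℂ) : MeromorphicAt L.wp t :=
  (analyticAt_cexp.sub analyticAt_const).meromorphicAt.inv

lemma exp_ev (c t₀ : ℂ) : ∀ᶠ t in 𝓝[≠] t₀, Complex.exp t ≠ c := by
  by_cases h : Complex.exp t₀ = c
  · exact h ▸ (Complex.hasDerivAt_exp t₀).eventually_ne (Complex.exp_ne_zero t₀)
  · exact nhdsWithin_le_nhds (Complex.continuous_exp.continuousAt.eventually_ne h)

lemma near (M : ℝ) : ∃ R : ℝ, 0 < R ∧ ∀ t : ℂ, |t.re| ≤ M → ∃ l ∈ L.lattice, ‖t - l‖ ≤ R := by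
  have p : 0 < 2 * Real.pi := by positivity
  refine ⟨|M| + 2 * Real.pi, by positivity, fun t ht => ⟨_, L.mem_iff.2
    ⟨⌊t.im / (2 * Real.pi)⌋, rfl⟩, (Complex.norm_le_abs_re_add_abs_im _).trans ?_⟩⟩
  rw [L.re_sub (L.mem_iff.2 ⟨_, rfl⟩)]
  have e : (t - (⌊t.im / (2 * Real.pi)⌋ : ℤ) * (2 * Real.pi * Complex.I)).im =
      Int.fract (t.im / (2 * Real.pi)) * (2 * Real.pi) := by
    rw [Int.fract, sub_mul, div_mul_cancel₀ _ p.ne']
    simp
  rw [e, abs_of_nonneg (mul_nonneg (Int.fract_nonneg _) p.le)]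
  exact add_le_add (ht.trans (le_abs_self M))
    (mul_le_of_le_one_left p.le (Int.fract_lt_one _).le)

/-- The bad values are logarithms of finitely many numbers. -/
lemma bad_exp (S : Finset ℂ) : ∃ T : Finset ℂ, ∀ t ∈ Bad L S, Complex.exp t ∈ T := by
  classical
  refine ⟨insert 1 (S.image fun s => 1 + s⁻¹), fun t ht => ?_⟩
  rcases ht with h | h
  · exact Finset.mem_insert.2 (.inl (L.exp_iff.2 h))
  · exact Finset.mem_insert_of_mem (Finset.mem_image.2 ⟨_, h, by simp [wp]⟩)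

lemma bad_strip (S : Finset ℂ) : ∃ M : ℝ, 0 ≤ M ∧ ∀ t ∈ Bad L S, |t.re| ≤ M := by
  obtain ⟨T, hT⟩ := L.bad_exp S
  refine ⟨∑ c ∈ T, |Real.log ‖c‖|, Finset.sum_nonneg fun _ _ => abs_nonneg _, fun t ht => ?_⟩
  have := Finset.single_le_sum (f := fun c : ℂ => |Real.log ‖c‖|) (fun _ _ => abs_nonneg _)
    (hT t ht)
  simpa only [Complex.norm_exp, Real.log_exp] using this

lemma off_bad (S : Finset ℂ) (t₀ : ℂ) : ∀ᶠ t in 𝓝[≠] t₀, t ∉ Bad L S := by
  obtain ⟨T, hT⟩ := L.bad_exp S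
  filter_upwards [(eventually_all_finset T).2 fun c _ => exp_ev c t₀] with t h q
  exact h _ (hT t q) rfl

lemma bad_add (S : Finset ℂ) : ∀ t ∈ Bad L S, ∀ l ∈ L.lattice, t + l ∈ Bad L S :=
  fun t ht l hl => by
  rcases ht with ht | ht
  · exact Or.inl (add_mem ht hl)
  · refine Or.inr ?_
    rwa [L.wp_add_coe t ⟨l, hl⟩]

lemma bad_fin (S : Finset ℂ) {K : Set ℂ} (hK : IsCompact K) : (K ∩ Bad L S).Finite := by
  refine hK.induction_on (p := fun K => (K ∩ Bad L S).Finite) (by simp)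
    (fun s t hst ht => ht.subset (inter_subset_inter_left _ hst))
    (fun s t hs ht => by rw [union_inter_distrib_right]; exact hs.union ht) fun x _ => ?_
  refine ⟨{t | t ≠ x → t ∉ Bad L S}, nhdsWithin_le_nhds ?_, (finite_singleton x).subset ?_⟩
  · exact eventually_nhdsWithin_iff.1 (L.off_bad S x)
  · rintro t ⟨h1, h2⟩
    by_contra h3
    exact h1 h3 h2

lemma bad_sep (S : Finset ℂ) :
    ∃ r : ℝ, 0 < r ∧ ∀ t ∈ Bad L S, ∀ t' ∈ Bad L S, t ≠ t' → r ≤ ‖t - t'‖ := by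
  obtain ⟨M, -, hM⟩ := L.bad_strip S
  obtain ⟨R, -, hR⟩ := L.near M
  have hF := L.bad_fin S (isCompact_closedBall (0 : ℂ) (R + 1))
  have h1 : ∀ᶠ r in 𝓝[>] (0 : ℝ), ∀ a ∈ closedBall (0 : ℂ) (R + 1) ∩ Bad L S,
      ∀ b ∈ closedBall (0 : ℂ) (R + 1) ∩ Bad L S, a ≠ b → r ≤ ‖a - b‖ := by
    refine (eventually_all_finite hF).2 fun a _ => (eventually_all_finite hF).2 fun b _ => ?_
    by_cases hab : a = b
    · exact Eventually.of_forall fun r h => absurd hab h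
    · refine nhdsWithin_le_nhds ?_
      filter_upwards [ge_mem_nhds (norm_pos_iff.2 (sub_ne_zero.2 hab))] with r hr _ using hr
  have h2 : ∀ᶠ r in 𝓝[>] (0 : ℝ), r ≤ 1 := nhdsWithin_le_nhds (ge_mem_nhds one_pos)
  obtain ⟨r, ⟨r1, r2⟩, r3⟩ := ((h1.and h2).and self_mem_nhdsWithin).exists
  refine ⟨r, r3, fun t ht t' ht' hne => ?_⟩
  by_cases h : 1 ≤ ‖t - t'‖
  · exact r2.trans h
  obtain ⟨l, hl, hd⟩ := hR t (hM t ht)
  have e : t - t' = t + -l - (t' + -l) := by ring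
  have e' : t' + -l = t - l - (t - t') := by ring
  rw [e]
  refine r1 _ ⟨?_, L.bad_add S t ht _ (neg_mem hl)⟩ _ ⟨?_, L.bad_add S t' ht' _ (neg_mem hl)⟩
    fun h' => hne (add_right_cancel h')
  · rw [mem_closedBall_zero_iff, ← sub_eq_add_neg]
    linarith
  · rw [mem_closedBall_zero_iff, e']
    linarith [norm_sub_le (t - l) (t - t')]

end Bas

theorem lat : LatStmt := fun L => by
  refine ⟨L.near, fun p t₀ hp => ?_, fun S => ⟨L.bad_add S, L.bad_sep S, fun t₀ => ?_⟩⟩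
  · classical
    filter_upwards [L.off_bad p.roots.toFinset t₀] with t ht
    refine ⟨fun h => ht (Or.inl h), fun h => ht (Or.inr ?_)⟩
    exact Multiset.mem_toFinset.2 ((Polynomial.mem_roots hp).2 h)
  · obtain ⟨r, hr, h⟩ := nhds_basis_closedBall.eventually_iff.1
      (eventually_nhdsWithin_iff.1 (L.off_bad S t₀))
    refine ⟨r, hr, fun t ht hd => ?_⟩
    by_contra h3
    exact h (mem_closedBall_iff_norm.2 hd) h3 ht

end Pool.Agent.MP_c69980_ag.E2.G3H
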