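import Pool.Agent.MP_c69980_ag.G3H.Lat
import Pool.Agent.MP_c69980_ag.E1.WC

/-!
Charts of a smooth surface, its tangent spaces, and the function `t` in a chart.
-/

set_option autoImplicit false

noncomputable section

namespace Pool.Agent.MP_c69980_ag.E2.G3H

open MvPolynomial Metric Filter Topology Set
open H60 H4 E1

open WC

theorem wt (h : GenStmt) : WTStmt := by
  intro n L W X a b j U Y q t hC hY hq hx
  obtain ⟨h1, h2, h3, hy, h4⟩ := hY.2.2 q hq
  have hA := hY.2.1 q hq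
  obtain ⟨T, hT, e1, e2, e3⟩ := hC.loc _ hx
  replace e1 : T (Y q) = t := e1
  have hj : Y q j ≠ 0 := h1.trans_ne one_ne_zero
  have hT' : AnalyticAt ℂ (fun p => T (Y p)) q := AnalyticAt.comp (f := Y) hT hA
  have f1 : ∀ᶠ p in 𝓝 q, (T (Y p), Y p) ∈ X := by
    filter_upwards [hY.1.eventually_mem hq, hA.continuousAt.tendsto.eventually e2] with p hp h5
    exact h5 (hY.2.2 p hp).2.2.2.1
  have t0 : Tendsto (fun x : Pt n => x.2) (𝓝 (t, Y q)) (𝓝 (Y q)) := continuousAt_snd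
  have t1 : Tendsto (fun x : Pt n => (x.1, (1 / x.2 j) • x.2)) (𝓝 (t, Y q)) (𝓝 (t, Y q)) := by
    have := (nrm_tend h1 1).comp t0
    rw [one_smul] at this
    exact (continuousAt_fst (p := ((t, Y q) : Pt n))).tendsto.prodMk_nhds this
  have f2 : ∀ᶠ x in 𝓝 ((t, Y q) : Pt n), x ∈ X → x.1 = T (Y (x.2 a / x.2 j, x.2 b / x.2 j)) ∧
      Pp x.2 (Y (x.2 a / x.2 j, x.2 b / x.2 j)) := by
    filter_upwards [t0.eventually h4, t1.eventually e3,
      t0.eventually ((continuous_apply j).continuousAt.eventually_ne hj)] with x h5 h6 h7 hx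
    have h8 := h5 (hC.cone _ ⟨x.1, hx⟩)
    refine ⟨(h6 (hC.cn.scal x hx _ (one_div_ne_zero h7))).trans (congrArg T ?_), _, h7, h8⟩
    rw [one_div, inv_smul_eq_iff₀ h7]
    exact h8
  refine ⟨fun p => T (Y p), hT', e1, f1, f2, fun hn => ?_⟩
  have t2 : Tendsto (fun x : Pt n => (x.2 a / x.2 j, x.2 b / x.2 j)) (𝓝 (T (Y q), Y q)) (𝓝 q) := by
    have := (quo a b hj).continuousAt.tendsto.comp t0
    simp only [h1, h2, h3, div_one] at this
    exact e1 ▸ this
  have key : ∀ i, fderiv ℂ (fun p => T (Y p)) q (1, 0) * (dz Y q i * Y q j - Y q i * dz Y q j) =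
      fderiv ℂ (fun p => T (Y p)) q (0, 1) * (dt Y q i * Y q j - Y q i * dt Y q j) := fun i => by
    by_contra hne
    exact hn ⟨i, j, e1 ▸ h n X i j Y (fun p => T (Y p)) _ q hC.cn hA hT' hj f1 t2 (e1 ▸ f2) hne⟩
  obtain ⟨c1, c2, c3⟩ := coords hY hq (1, 0)
  obtain ⟨c4, c5, c6⟩ := coords hY hq (0, 1)
  have k1 := key a
  have k2 := key b
  simp only [dt, dz, c1, c2, c3, c4, c5, c6, h1, mul_zero, mul_one, sub_zero] at k1 k2
  exact ContinuousLinearMap.prod_ext (ContinuousLinearMap.ext_ring (by simpa using k2))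
    (ContinuousLinearMap.ext_ring (by simpa using k1.symm))

theorem nonreg (h : WTStmt) : NonregStmt := by
  intro n L W X hC hW x hx hn F u hF hu he e0
  obtain ⟨a, b, j, U, Y, hY, q, hq, s, hs, e1⟩ := hW x.2 (hC.cone _ ⟨x.1, hx⟩)
  obtain ⟨h1, h2, h3, -⟩ := hY.2.2 q hq
  have e2 : s⁻¹ • x.2 = Y q := by rw [e1, inv_smul_smul₀ hs]
  obtain ⟨T, hT, -, -, f2, f3⟩ := h n L W X a b j U Y q x.1 hC hY hq
    (e2 ▸ hC.cn.scal x hx _ (inv_ne_zero hs))
  have f4 := f3 fun hr => hn (by simpa [← e1] using rx_smul hs hr)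
  have hF' : AnalyticAt ℂ (fun w => s⁻¹ • F w) 0 := analyticAt_const.fun_smul hF
  have e3 : s⁻¹ • F 0 = Y q := by rw [← e2, ← e0]
  have hj : (s⁻¹ • F 0) j ≠ 0 := by rw [e3, h1]; exact one_ne_zero
  have hQ := (quo a b hj).comp (f := fun w => s⁻¹ • F w) hF'
  have t1 : Tendsto (fun w => (u w, s⁻¹ • F w)) (𝓝 0) (𝓝 (x.1, Y q)) := by
    have := (hu.prod hF').continuousAt.tendsto
    rwa [e3, show u 0 = x.1 from congrArg Prod.fst e0] at this
  have e4 : ((fun w : V n => (w a / w j, w b / w j)) ∘ fun w => s⁻¹ • F w) 0 = q := by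
    simp only [Function.comp_apply, e3, h1, h2, h3, div_one]
  have d1 : HasFDerivAt T (0 : ℂ × ℂ →L[ℂ] ℂ)
      (((fun w : V n => (w a / w j, w b / w j)) ∘ fun w => s⁻¹ • F w) 0) := by
    rw [e4, ← f4]
    exact hT.differentiableAt.hasFDerivAt
  have d2 := d1.comp_hasDerivAt 0 hQ.differentiableAt.hasDerivAt
  refine (d2.congr_of_eventuallyEq ?_).deriv
  filter_upwards [he, t1.eventually f2] with w h4 h5
  exact (h5 (hC.cn.scal _ h4 _ (inv_ne_zero hs))).1

end Pool.Agent.MP_c69980_ag.E2.G3H
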