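import Pool.Agent.MP_c69980_ag.G3H.AlgA
import Pool.Agent.MP_c69980_ag.G3H.AlgB
import Pool.Agent.MP_c69980_ag.G3H.Cov
import Pool.Agent.MP_c69980_ag.G3H.Crit
import Pool.Agent.MP_c69980_ag.G3H.Fib
import Pool.Agent.MP_c69980_ag.G3H.Frm
import Pool.Agent.MP_c69980_ag.G3H.Hyp
import Pool.Agent.MP_c69980_ag.G3H.Par
import Pool.Agent.MP_c69980_ag.G3H.Phi
import Pool.Agent.MP_c69980_ag.G3H.Pole
import Pool.Agent.MP_c69980_ag.G3H.WC
import Pool.Agent.MP_c69980_ag.E2.Hur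
import Pool.Agent.MP_c69980_ag.E1.AlgBA
import Pool.Agent.MP_c69980_ag.E1.Chart
import Pool.Agent.MP_c69980_ag.E1.Mon
import Pool.Agent.MP_c69980_ag.E1.WC

/-!
Open surfaces with a nonconstant function: assembly of the package and hyperbolicity near the
good fibres.
-/

set_option autoImplicit false

namespace Pool.Agent.MP_c69980_ag.E2.G3H

open H60 H4 E1

theorem aHyp : HypStmt := hyp (fib logD prop E1.lift) E1.mon hur lat

lemma bad_mono {L : Bas} {S S' : Finset ℂ} (h : S ⊆ S') : Bad L S ⊆ Bad L S' :=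
  fun _ q => q.imp_right fun a => h a

theorem pack : PackStmt := by
  classical
  intro K _ _ n d
  have aJac : JacStmt := jac (pdS tan)
  have aAlgA : AlgAStmt := algA cov gS wc
  obtain ⟨Φ, kl⟩ := phi aJac wc cov K n d
  obtain ⟨fr, l0⟩ := frm aJac wc cov K n d Φ kl
  obtain ⟨S₁, b1⟩ := crit sard tan (wt gen) wc gS cov K n d
  obtain ⟨-, -, a2, -, -⟩ := aAlgA K n d
  obtain ⟨c1, c2, -⟩ := algB cov gS aAlgA K n d Φ l0
  obtain ⟨S₂, b2⟩ := vert n d.L d.X d.Uo Φ a2 c1 c2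
  obtain ⟨e1, e2⟩ := eqp cov K n d
  obtain ⟨S₃, b3⟩ := pole n d.m d.L d.X d.Uo Φ a2 e2 (par aJac wc cov K n d Φ kl)
  exact ⟨⟨d.L, d.W, d.Uo, d.X, d.m, Φ, S₁ ∪ (S₂ ∪ S₃), cov K n d, e1, fr,
    fun x hx q => b1 x hx fun r => q (bad_mono Finset.subset_union_left r),
    fun t q => b2 t fun r => q (bad_mono
      (Finset.subset_union_left.trans Finset.subset_union_right) r),
    fun a j O Y h p hp q => b3 a j O Y h p hp fun r => q (bad_mono
      (Finset.subset_union_right.trans Finset.subset_union_right) r)⟩, rfl, rfl⟩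

end Pool.Agent.MP_c69980_ag.E2.G3H
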