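import Pool.Agent.MP_c69980_ag.E2.BaseB

/-!
Open surfaces with a nonconstant function: the analytic package over the strip and hyperbolicity
near the good fibres. The base is the universal cover of the punctured plane, the lattice is `2 π i ℤ`.
-/

set_option autoImplicit false

noncomputable section

namespace Pool.Agent.MP_c69980_ag.E2.G3H

open MvPolynomial Metric Filter Topology MeasureTheory Set
open scoped ENNReal ComplexConjugate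
open H60 H4 E1

variable {n : ℕ}

/-- The base. -/
structure Bas : Type

/-- The periods. -/
def Bas.lattice (_ : Bas) : Submodule ℤ ℂ := Submodule.span ℤ {2 * Real.pi * Complex.I}

/-- A coordinate with poles at the periods. -/
def Bas.wp (_ : Bas) (t : ℂ) : ℂ := (Complex.exp t - 1)⁻¹

/-- Its derivative. -/
def Bas.wq (_ : Bas) (t : ℂ) : ℂ := -Complex.exp t / (Complex.exp t - 1) ^ 2

/-- The bad values. -/
def Bad (L : Bas) (S : Finset ℂ) : Set ℂ := {t | t ∈ L.lattice ∨ L.wp t ∈ S}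

/-- The pull-back `X` of the cone over an open part of `W` to the universal cover of the base. -/
structure Cov (L : Bas) (W : Set (PS n)) (X : Set (Pt n)) : Prop where
  cn : Cn X
  cone : ∀ y, (∃ t, (t, y) ∈ X) → y ∈ Cone W
  per : ∀ x ∈ X, ∀ l ∈ L.lattice, (x.1 + l, x.2) ∈ X
  uniq : ∀ t t' y, (t, y) ∈ X → (t', y) ∈ X → t - t' ∈ L.lattice
  loc : ∀ x ∈ X, ∃ T : V n → ℂ, AnalyticAt ℂ T x.2 ∧ T x.2 = x.1 ∧
    (∀ᶠ y in 𝓝 x.2, y ∈ Cone W → (T y, y) ∈ X) ∧ ∀ᶠ x' in 𝓝 x, x' ∈ X → x'.1 = T x'.2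

/-- Relative pluricanonical forms, holomorphic over `U`. -/
structure Frm (L : Bas) (X : Set (Pt n)) (U : Set (PS n)) (m : ℕ)
    (Φ : Fin 3 → Pt n → V n → ℂ) : Prop where
  m0 : 0 < m
  an : ∀ a j O Y, Chart X a j O Y → ∀ p ∈ O, Y p ∈ Cone U → ∀ i, AnalyticAt ℂ (fc Φ Y i) p
  hom : ∀ a j O Y, Chart X a j O Y → ∀ p ∈ O, Y p ∈ Cone U → ∀ l ∈ L.lattice,
    ∀ (c α β : ℂ) (i : Fin 3), c ≠ 0 →
      Φ i (p.1 + l, c • Y p) (α • dz Y p + β • Y p) = (α / c) ^ m * fc Φ Y i p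

section props

variable (L : Bas) (X : Set (Pt n)) (U : Set (PS n)) (m : ℕ) (Φ : Fin 3 → Pt n → V n → ℂ)
  (S : Finset ℂ)

def BadP : Prop := ∀ x ∈ X, x.1 ∉ Bad L S → x ∈ Rx X

def DropP : Prop := ∀ B a j, NZ X B → ∃ P : Polynomial (Polynomial ℂ), P ≠ 0 ∧ ∀ x ∈ X,
  x.1 ∉ L.lattice → x.2 j ≠ 0 → eval x.2 B = 0 → P.evalEval (L.wp x.1) (x.2 a / x.2 j) = 0

def BadfP : Prop := ∃ B, NZ X B ∧ ∀ x ∈ X, x.1 ∈ Bad L S → eval x.2 B = 0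

def VanQ (Q : PR 3) : Prop := ∀ a j O Y, Chart X a j O Y →
  ∀ p ∈ O, Y p ∈ Cone U → p.1 ∈ L.lattice → qq Φ Q Y p = 0

def VanP : Prop := ∃ (Q : PR 3) (d : ℕ), 0 < d ∧ Q.IsHomogeneous d ∧ Q ≠ 0 ∧ VanQ L X U Φ Q

def VertP : Prop := ∀ t ∉ Bad L S, ∀ a j O Y, Chart X a j O Y → ∀ c : Fin 3 → ℂ,
  {ζ | (t, ζ) ∈ O ∧ Y (t, ζ) ∈ Cone U ∧ ∃ κ : ℂ, ∀ l, fc Φ Y l (t, ζ) = κ * c l}.Finite

/-- Over good values the boundary is a union of graphs, and the poles have order at most `m`. -/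
def PoleP : Prop := ∀ a j O Y, Chart X a j O Y → ∀ p ∈ O, p.1 ∉ Bad L S → Y p ∉ Cone U →
  ∃ (ζ : ℂ → ℂ) (φ : Fin 3 → ℂ × ℂ → ℂ), AnalyticAt ℂ ζ p.1 ∧ ζ p.1 = p.2 ∧
    (∀ i, AnalyticAt ℂ (φ i) p) ∧ ∀ᶠ q in 𝓝 p, (Y q ∈ Cone U ↔ q.2 ≠ ζ q.1) ∧
      (q.2 ≠ ζ q.1 → ∀ i, φ i q = (q.2 - ζ q.1) ^ m * fc Φ Y i q)

end props

/-- The analytic package. -/
structure Fib (n : ℕ) where
  L : Bas
  W : Set (PS n)
  U : Set (PS n)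
  X : Set (Pt n)
  m : ℕ
  Φ : Fin 3 → Pt n → V n → ℂ
  S : Finset ℂ
  cov : Cov L W X
  eqp : EqP W U
  frm : Frm L X U m Φ
  bad : BadP L X S
  vert : VertP L X U Φ S
  pole : PoleP L X U m Φ S

/-- The open part. -/
abbrev Fib.Xo (D : Fib n) : Set (Pt n) := Op D.X D.U

/-- The bad values. -/
abbrev Fib.B (D : Fib n) : Set ℂ := Bad D.L D.S

def Far (D : Fib n) (η : ℝ) (t : ℂ) : Prop := ∀ b ∈ D.B, η ≤ ‖t - b‖

/-! ### Rows Lat, Gain, Nrm: the base -/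

def LatStmt : Prop := ∀ L : Bas,
  (∀ M : ℝ, ∃ R : ℝ, 0 < R ∧ ∀ t : ℂ, |t.re| ≤ M → ∃ l ∈ L.lattice, ‖t - l‖ ≤ R) ∧
  (∀ (p : Polynomial ℂ) (t₀ : ℂ), p ≠ 0 →
    ∀ᶠ t in 𝓝[≠] t₀, t ∉ L.lattice ∧ p.eval (L.wp t) ≠ 0) ∧
  ∀ S : Finset ℂ, (∀ t ∈ Bad L S, ∀ l ∈ L.lattice, t + l ∈ Bad L S) ∧
    (∃ r : ℝ, 0 < r ∧ ∀ t ∈ Bad L S, ∀ t' ∈ Bad L S, t ≠ t' → r ≤ ‖t - t'‖) ∧
    ∀ t₀, ∃ r : ℝ, 0 < r ∧ ∀ t ∈ Bad L S, ‖t - t₀‖ ≤ r → t = t₀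

/-! ### Rows Star, Fib, Hyp: hyperbolicity away from the bad fibres -/

/-- Entire curves in the open parts of good fibres with bounded derivative are constant. -/
def FibStmt : Prop := ∀ (n : ℕ) (D : Fib n) (G : ℂ → V n) (t : ℂ) (A : ℝ), t ∉ D.B →
  LH univ G → (∀ w, (t, G w) ∈ D.Xo) →
  (∀ c r g, Crv (ball c r) g → (∀ w ∈ ball c r, Pp (G w) (g w)) → ∀ w ∈ ball c r, lam g w ≤ A) →
  ∀ r g, 0 < r → Crv (ball 0 r) g → (∀ w ∈ ball (0 : ℂ) r, Pp (G w) (g w)) → lam g 0 = 0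

def HypStmt : Prop := ∀ (n : ℕ) (D : Fib n) (η M : ℝ), 0 < η → ∃ A : ℝ, 0 < A ∧
  ∀ (F : ℂ → V n) (h : ℂ → ℂ) (c : ℂ) (r : ℝ), 0 < r → Nm D.Xo (ball c r) F h →
    (∀ z ∈ ball c r, Far D η (h z) ∧ |(h z).re| ≤ M) → lam F c * r ^ 2 ≤ A

end Pool.Agent.MP_c69980_ag.E2.G3H
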